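import Pool.Agent.H5.EF.Stm

/-! Crew EF: parts GS1, GS2, GS3 (the function `s(r) = ∫_r^∞ dt / g(t)`). -/

open Set Filter Topology MeasureTheory

namespace H7.EF

open H5.EF

theorem ginv_contOn (m : ℕ) : ContinuousOn (fun t => (gg m t)⁻¹) (Ioi 0) := by
  refine ContinuousOn.inv₀ (gg_cont m).continuousOn fun t ht => (gg_pos (m := m) ht).ne'

theorem ginv_le {m : ℕ} (hm : 1 ≤ m) {t : ℝ} (ht : 1 ≤ t) :
    (gg m t)⁻¹ ≤ 4 * Real.exp (-1 * t) := by
  have h0 : (0 : ℝ) < t := by linarith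
  have h1 : t ≤ Real.sinh t := (Real.self_lt_sinh_iff.2 h0).le
  have h2 : 1 ≤ Real.sinh t := ht.trans h1
  have h3 : Real.sinh t ≤ gg m t := by
    unfold gg
    calc Real.sinh t = Real.sinh t ^ 1 := (pow_one _).symm
      _ ≤ Real.sinh t ^ m := pow_le_pow_right₀ h2 hm
  have h4 : Real.exp t / 4 ≤ Real.sinh t := by
    rw [Real.sinh_eq]
    have h5 : Real.exp (-t) ≤ 1 := Real.exp_le_one_iff.2 (by linarith)
    have h6 : t + 1 ≤ Real.exp t := Real.add_one_le_exp t
    linarith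
  have h5 : 0 < Real.exp t := Real.exp_pos t
  calc (gg m t)⁻¹ ≤ (Real.exp t / 4)⁻¹ := inv_anti₀ (by positivity) (h4.trans h3)
    _ = 4 * Real.exp (-1 * t) := by
      rw [neg_one_mul, Real.exp_neg, inv_div, div_eq_mul_inv]

theorem ginv_int {m : ℕ} (hm : 1 ≤ m) : IntegrableOn (fun t => (gg m t)⁻¹) (Ioi 1) := by
  have h1 : IntegrableOn (fun t : ℝ => 4 * Real.exp (-1 * t)) (Ioi 1) :=
    (exp_neg_integrableOn_Ioi 1 one_pos).const_mul 4
  refine h1.mono' ?_ ?_
  · exact ((ginv_contOn m).mono (fun t ht => by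
      have : (1 : ℝ) < t := ht
      show (0 : ℝ) < t
      linarith)).aestronglyMeasurable measurableSet_Ioi
  · refine (ae_restrict_iff' measurableSet_Ioi).2 (Filter.Eventually.of_forall fun t ht => ?_)
    have h2 : (1 : ℝ) < t := ht
    rw [Real.norm_of_nonneg (inv_nonneg.2 (gg_pos (m := m) (by linarith : (0 : ℝ) < t)).le)]
    exact ginv_le hm h2.le

theorem t_GS1 : S_GS1 := by
  intro m hm
  set f : ℝ → ℝ := fun t => (gg m t)⁻¹ with hf
  set L : ℝ := ∫ t in Ioi (1 : ℝ), f t with hL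
  have hd : ∀ r, 0 < r → HasDerivAt (fun r => L - ∫ t in (1 : ℝ)..r, f t) (-(gg m r)⁻¹) r := by
    intro r hr
    have hint : IntervalIntegrable f volume 1 r := by
      refine ContinuousOn.intervalIntegrable ((ginv_contOn m).mono fun t ht => ?_)
      have h1 := ht.1
      show (0 : ℝ) < t
      have h2 : min 1 r ≤ t := h1
      have h3 : 0 < min 1 r := lt_min one_pos hr
      linarith
    have hc : ContinuousAt f r := (ginv_contOn m).continuousAt (Ioi_mem_nhds hr)
    have hmeas : StronglyMeasurableAtFilter f (𝓝 r) volume :=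
      (ginv_contOn m).stronglyMeasurableAtFilter isOpen_Ioi r hr
    have h1 := intervalIntegral.integral_hasDerivAt_right hint hmeas hc
    have h2 := (hasDerivAt_const r L).sub h1
    rw [zero_sub] at h2
    exact h2
  have hlim : Tendsto (fun r => L - ∫ t in (1 : ℝ)..r, f t) atTop (𝓝 0) := by
    have h1 : Tendsto (fun r => ∫ t in (1 : ℝ)..r, f t) atTop (𝓝 L) :=
      intervalIntegral_tendsto_integral_Ioi 1 (ginv_int hm) tendsto_id
    have h2 := h1.const_sub L
    rwa [sub_self] at h2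
  have hanti : StrictAntiOn (fun r => L - ∫ t in (1 : ℝ)..r, f t) (Ioi 0) := by
    refine strictAntiOn_of_deriv_neg (convex_Ioi 0) ?_ ?_
    · intro r hr
      exact (hd r hr).continuousAt.continuousWithinAt
    · intro r hr
      rw [interior_Ioi] at hr
      rw [(hd r hr).deriv]
      have := inv_pos.2 (gg_pos (m := m) hr)
      linarith
  refine ⟨fun r => L - ∫ t in (1 : ℝ)..r, f t, hd, ?_, hlim⟩
  intro r hr
  have h1 : (L - ∫ t in (1 : ℝ)..(r + 1), f t) < L - ∫ t in (1 : ℝ)..r, f t :=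
    hanti hr (show (0 : ℝ) < r + 1 by linarith) (by linarith)
  have h2 : 0 ≤ L - ∫ t in (1 : ℝ)..(r + 1), f t := by
    refine le_of_tendsto hlim ((eventually_gt_atTop (r + 1)).mono fun t ht => ?_)
    exact (hanti (show (0 : ℝ) < r + 1 by linarith) (show (0 : ℝ) < t by linarith) ht).le
  show 0 < L - ∫ t in (1 : ℝ)..r, f t
  linarith

theorem t_GS2 : S_GS2 := by
  intro m s hm hs hpos
  rw [Metric.tendsto_nhdsWithin_nhds]
  intro ε hε
  -- `g s ≤ g s δ + δ`
  have hδ : ∀ δ r, 0 < r → r < δ → gg m r * s r ≤ gg m r * s δ + δ := by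
    intro δ r hr hrδ
    have hg := gg_pos (m := m) hr
    obtain ⟨c, hc, hc'⟩ := exists_hasDerivAt_eq_slope s (fun t => -(gg m t)⁻¹) hrδ
      (fun t ht => (hs t (lt_of_lt_of_le hr ht.1)).continuousAt.continuousWithinAt)
      (fun t ht => hs t (hr.trans ht.1))
    have h1 : gg m r ≤ gg m c := gg_mono hr.le hc.1.le
    have h2 : (gg m c)⁻¹ ≤ (gg m r)⁻¹ := inv_anti₀ hg h1
    have h3 : s δ - s r = -(gg m c)⁻¹ * (δ - r) := by
      rw [hc', div_mul_cancel₀]
      linarith
    have h4 : s r - s δ ≤ (gg m r)⁻¹ * (δ - r) := by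
      have := mul_le_mul_of_nonneg_right h2 (show 0 ≤ δ - r by linarith)
      linarith
    have h5 := mul_le_mul_of_nonneg_left h4 hg.le
    rw [← mul_assoc, mul_inv_cancel₀ hg.ne', one_mul, mul_sub] at h5
    linarith
  have hg0 : gg m 0 = 0 := by
    unfold gg
    rw [Real.sinh_zero, zero_pow (by omega)]
  have hcont : Tendsto (fun r => gg m r * s (ε / 2)) (𝓝 0) (𝓝 0) := by
    have h1 := ((gg_cont m).tendsto 0).mul_const (s (ε / 2))
    rwa [hg0, zero_mul] at h1
  rw [Metric.tendsto_nhds_nhds] at hcont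
  obtain ⟨d, hd, hd'⟩ := hcont (ε / 2) (by linarith)
  refine ⟨min d (ε / 2), lt_min hd (by linarith), ?_⟩
  intro r hr hr'
  have hr0 : (0 : ℝ) < r := hr
  rw [Real.dist_eq, sub_zero, abs_of_pos hr0] at hr'
  have h1 := hd' (x := r) (by
    rw [Real.dist_eq, sub_zero, abs_of_pos hr0]
    exact lt_of_lt_of_le hr' (min_le_left _ _))
  rw [Real.dist_eq, sub_zero] at h1
  have h2 := hδ (ε / 2) r hr0 (lt_of_lt_of_le hr' (min_le_right _ _))
  have h3 : 0 < gg m r * s r := mul_pos (gg_pos hr0) (hpos r hr0)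
  rw [Real.dist_eq, sub_zero, abs_of_pos h3]
  have h4 := le_abs_self (gg m r * s (ε / 2))
  linarith

/-- the comparison function -/
noncomputable def qq (m : ℕ) (r : ℝ) : ℝ :=
  Real.cosh r * Real.sinh r / (gg m r * (m * Real.cosh r ^ 2 - 1))

theorem den_pos {m : ℕ} (hm : 1 ≤ m) {r : ℝ} (hr : 0 < r) :
    Real.sinh r ^ 2 ≤ m * Real.cosh r ^ 2 - 1 ∧ 0 < m * Real.cosh r ^ 2 - 1 := by
  have h1 : (1 : ℝ) ≤ m := by exact_mod_cast hm
  have h2 := Real.cosh_sq r
  have h3 : 0 < Real.sinh r := Real.sinh_pos_iff.2 hr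
  have h4 : Real.sinh r ^ 2 ≤ m * Real.cosh r ^ 2 - 1 := by
    have : 1 * Real.cosh r ^ 2 ≤ m * Real.cosh r ^ 2 :=
      mul_le_mul_of_nonneg_right h1 (sq_nonneg _)
    linarith
  exact ⟨h4, lt_of_lt_of_le (by positivity) h4⟩

theorem qq_deriv {m : ℕ} (hm : 1 ≤ m) {r : ℝ} (hr : 0 < r) :
    HasDerivAt (qq m) (-(gg m r)⁻¹ - 2 * Real.sinh r ^ 2 /
      (gg m r * (m * Real.cosh r ^ 2 - 1) ^ 2)) r := by
  have hg := gg_pos (m := m) hr
  obtain ⟨-, hd⟩ := den_pos hm hr
  have hS : 0 < Real.sinh r := Real.sinh_pos_iff.2 hr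
  have h1 : HasDerivAt (fun r => Real.cosh r * Real.sinh r)
      (Real.sinh r * Real.sinh r + Real.cosh r * Real.cosh r) r :=
    (Real.hasDerivAt_cosh r).mul (Real.hasDerivAt_sinh r)
  have h2 : HasDerivAt (fun r => (m : ℝ) * Real.cosh r ^ 2 - 1)
      (m * (2 * Real.cosh r * Real.sinh r)) r := by
    have h3 := (((Real.hasDerivAt_cosh r).pow 2).const_mul (m : ℝ)).sub_const 1
    refine h3.congr_deriv ?_
    simp
  have h3 := h1.div ((gg_deriv (m := m) hr).mul h2) (mul_pos hg hd).ne'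
  refine h3.congr_deriv ?_
  have hc := Real.cosh_sq r
  unfold hh
  simp only [Pi.mul_apply]
  set S := Real.sinh r
  set c := Real.cosh r
  set G := gg m r
  set X : ℝ := m * c ^ 2 - 1 with hX
  have hX' : (m : ℝ) * c ^ 2 = X + 1 := by rw [hX]; ring
  have e1 : c * S * (G * (m * (c / S)) * X + G * (m * (2 * c * S))) =
      G * ((m * c ^ 2) * X + 2 * (m * c ^ 2) * S ^ 2) := by
    field_simp
  rw [e1, hX']
  have e2 : (S * S + c * c) * (G * X) - G * ((X + 1) * X + 2 * (X + 1) * S ^ 2) =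
      G * (-X ^ 2 - 2 * S ^ 2) := by
    have : c * c = S ^ 2 + 1 := by rw [← hc]; ring
    rw [this]
    ring
  rw [e2]
  field_simp

theorem t_GS3 : S_GS3 := by
  intro m s hm hs hlim r hr
  have hg := gg_pos (m := m) hr
  obtain ⟨-, hd⟩ := den_pos hm hr
  have hS : 0 < Real.sinh r := Real.sinh_pos_iff.2 hr
  have hanti : StrictAntiOn (fun r => qq m r - s r) (Ioi 0) := by
    refine strictAntiOn_of_deriv_neg (convex_Ioi 0) ?_ ?_
    · intro t ht
      exact ((qq_deriv hm ht).fun_sub (hs t ht)).continuousAt.continuousWithinAt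
    · intro t ht
      rw [interior_Ioi] at ht
      rw [((qq_deriv hm ht).fun_sub (hs t ht)).deriv]
      have h1 := gg_pos (m := m) ht
      have h2 := (den_pos hm ht).2
      have h3 : 0 < Real.sinh t := Real.sinh_pos_iff.2 ht
      have h4 : 0 < 2 * Real.sinh t ^ 2 / (gg m t * (m * Real.cosh t ^ 2 - 1) ^ 2) := by positivity
      linarith
  have hnn : ∀ t : ℝ, 0 < t → 0 ≤ qq m t := by
    intro t ht
    unfold qq
    have h1 := gg_pos (m := m) ht
    have h2 := (den_pos hm ht).2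
    have h3 : 0 < Real.sinh t := Real.sinh_pos_iff.2 ht
    have h4 := Real.cosh_pos t
    positivity
  have h1 : qq m (r + 1) - s (r + 1) < qq m r - s r :=
    hanti hr (show (0 : ℝ) < r + 1 by linarith) (by linarith)
  have h2 : ∀ t : ℝ, r + 1 < t → -s t < qq m (r + 1) - s (r + 1) := by
    intro t ht
    have h3 : qq m t - s t < qq m (r + 1) - s (r + 1) :=
      hanti (show (0 : ℝ) < r + 1 by linarith) (show (0 : ℝ) < t by linarith) ht
    have h4 := hnn t (by linarith)
    linarith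
  have h3 : 0 ≤ qq m (r + 1) - s (r + 1) := by
    have h4 : Tendsto (fun t => -s t) atTop (𝓝 (-0)) := hlim.neg
    rw [neg_zero] at h4
    exact le_of_tendsto h4 ((eventually_gt_atTop (r + 1)).mono fun t ht => (h2 t ht).le)
  have h4 : s r < qq m r := by linarith
  have h5 : 0 < gg m r * kk m r := by
    unfold kk
    have h6 : (0 : ℝ) < m := by exact_mod_cast hm
    positivity
  calc gg m r * kk m r * s r < gg m r * kk m r * qq m r := mul_lt_mul_of_pos_left h4 h5
    _ = hh m r := by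
      unfold kk qq hh
      field_simp

end H7.EF
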